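import Pool.Agent.helper57.PP.Spec

/-!
# Row TR1: a tree contains no nonempty even set of edges
-/

set_option autoImplicit false

namespace Pool.Agent.helper57.PP

open Finset

theorem TR1 : TR1_stmt := by
  intro W _ _ X hX2 hconn hcard S hS hev
  classical

  obtain ⟨v0⟩ := hconn.nonempty
  -- paths from `v0`
  have h1 : ∀ v : W, ∃ T ⊆ X, ∀ u, Odd (dg T u) ↔ ¬ (u = v0 ↔ u = v) := by
    intro v
    have hr : (gr X).Reachable v0 v := hconn.preconnected v0 v
    obtain ⟨w⟩ := hr
    have key : ∀ (a b : W), (gr X).Walk a b → ∃ T ⊆ X, ∀ u, Odd (dg T u) ↔ ¬ (u = a ↔ u = b) := by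
      intro a b w
      induction w with
      | nil =>
        refine ⟨∅, empty_subset _, fun u => ?_⟩
        simp [dg]
      | @cons a c b hadj w ih =>
        obtain ⟨T, hT, hT2⟩ := ih
        have hac : a ≠ c := hadj.1
        have hmem : ({a, c} : Finset W) ∈ X := hadj.2
        refine ⟨symmDiff T {{a, c}}, ?_, fun u => ?_⟩
        · intro e he
          rw [mem_symmDiff] at he
          rcases he with ⟨h, _⟩ | ⟨h, _⟩
          · exact hT h
          · rw [mem_singleton] at h
            rw [h]
            exact hmem
        · rw [odd_dg_symmDiff, hT2]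
          have h3 : Odd (dg ({{a, c}} : Finset (Finset W)) u) ↔ (u = a ∨ u = c) := by
            unfold dg
            rw [filter_singleton]
            by_cases hu : u ∈ ({a, c} : Finset W)
            · rw [if_pos hu]
              simp only [card_singleton, odd_one, true_iff]
              simpa using hu
            · rw [if_neg hu]
              simp only [card_empty, Nat.not_odd_zero, false_iff]
              simpa using hu
          rw [h3]
          by_cases e1 : u = a <;> by_cases e2 : u = b <;> by_cases e3 : u = c <;>
            simp_all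
    exact key v0 v w
  -- every set is realised
  have h2 : ∀ A ⊆ univ.erase v0, ∃ T ⊆ X, ∀ u, u ≠ v0 → (Odd (dg T u) ↔ u ∈ A) := by
    intro A
    induction A using Finset.induction_on with
    | empty =>
      intro _
      refine ⟨∅, empty_subset _, fun u _ => ?_⟩
      simp [dg]
    | insert v A hv ih =>
      intro hA
      obtain ⟨T, hT, hT2⟩ := ih ((subset_insert _ _).trans hA)
      obtain ⟨T', hT', hT2'⟩ := h1 v
      refine ⟨symmDiff T T', ?_, fun u hu => ?_⟩
      · intro e he
        rw [mem_symmDiff] at he
        rcases he with ⟨h, _⟩ | ⟨h, _⟩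
        · exact hT h
        · exact hT' h
      · rw [odd_dg_symmDiff, hT2 u hu, hT2' u, mem_insert]
        by_cases e1 : u = v
        · subst e1
          simp [hv, hu]
        · simp [e1, hu]
  -- counting
  let f : Finset (Finset W) → Finset W := fun T => (univ.erase v0).filter fun v => Odd (dg T v)
  have hinj := Finset.inj_on_of_surj_on_of_card_le (s := X.powerset)
    (t := (univ.erase v0).powerset) (fun T _ => f T)
    (fun T _ => by
      rw [mem_powerset]
      exact filter_subset _ _)
    (fun A hA => by
      rw [mem_powerset] at hA
      obtain ⟨T, hT, hT2⟩ := h2 A hA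
      refine ⟨T, mem_powerset.mpr hT, ?_⟩
      ext u
      simp only [f, mem_filter]
      constructor
      · rintro ⟨hu, ho⟩
        exact (hT2 u (ne_of_mem_erase hu)).mp ho
      · intro hu
        exact ⟨hA hu, (hT2 u (ne_of_mem_erase (hA hu))).mpr hu⟩)
    (by
      rw [card_powerset, card_powerset, card_erase_of_mem (mem_univ _), card_univ]
      have : X.card = Fintype.card W - 1 := by omega
      rw [this])
  apply hinj (mem_powerset.mpr hS) (mem_powerset.mpr (empty_subset _))
  have e1 : f S = ∅ := by
    simp only [f, filter_eq_empty_iff]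
    intro v _ ho
    exact (evenSet_iff.mp hev v) ho
  have e2 : f ∅ = ∅ := by
    simp only [f, filter_eq_empty_iff]
    intro v _ ho
    simp [dg] at ho
  rw [e1, e2]

end Pool.Agent.helper57.PP
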